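import Pool.Agent.H906.BD.S.Special

/-! # Campana's analytic conjecture for manifolds covered by `D × ℂ^b`

Let `D ⊆ ℂ^a` be an arbitrary bounded domain and let a group `Δ` act by biholomorphic maps,
properly discontinuously and with compact quotient `X`, on `D × ℂ^b`. We assume that a subgroup of
finite index preserves the splitting of the tangent bundle into `T_D` and the `b` coordinate lines
of `ℂ^b`, and that `X` is Kähler (for instance projective).

We prove: `X` is special if and only if `X` is Brody-special, and both hold if and only if `a = 0`,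
that is, if and only if `X` is a quotient of a complex torus by a finite group. If `a > 0`, then
`X` carries a Bogomolov sheaf in degree `a`, and every holomorphic map from `ℂ` to `X` has its image
in a proper closed analytic subset of `X`.

The main point is that the image of `Δ` in `Aut D` is discrete (this needs the Kähler metric, and
fails for the Inoue surfaces); then Poincaré series on `D` with independent one-jets at a point
with trivial stabilizer give the Bogomolov sheaf, and the fibres of `X → D / Δ` are closed. -/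

open Matrix
open scoped ComplexOrder

namespace Pool.Agent.Results.MP_1209e6_ag.BoundedDomainTimesCbSpecial

/-- The space `ℂ^a × ℂ^b`. -/
abbrev Pt (a b : ℕ) := Fin a ⊕ Fin b → ℂ

/-- The complex manifold `D × ℂ^b`. -/
def Dom {a : ℕ} (D : Set (Fin a → ℂ)) (b : ℕ) : Set (Pt a b) := {x | (fun i => x (Sum.inl i)) ∈ D}

/-- `D` is a bounded domain of `ℂ^a`. -/
structure IsBoundedDomain {a : ℕ} (D : Set (Fin a → ℂ)) : Prop where
  isOpen : IsOpen D
  connected : IsConnected D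
  bounded : Bornology.IsBounded D

/-- The complex Jacobian matrix `(∂ f_k / ∂ x_i)` of `f`. -/
noncomputable def Jac {a b : ℕ} (f : Pt a b → Pt a b) (x : Pt a b) :
    Matrix (Fin a ⊕ Fin b) (Fin a ⊕ Fin b) ℂ :=
  Matrix.of fun k i => fderiv ℂ f x (Pi.single i 1) k

/-- The group `Δ` acts on `D × ℂ^b` by holomorphic maps, properly discontinuously and with compact
quotient. -/
structure IsUniform {a b : ℕ} (D : Set (Fin a → ℂ)) {Δ : Type*} [Group Δ]
    (ρ : Δ → Pt a b → Pt a b) : Prop where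
  maps : ∀ δ, ∀ x ∈ Dom D b, ρ δ x ∈ Dom D b
  one : ∀ x ∈ Dom D b, ρ 1 x = x
  mul : ∀ δ ε, ∀ x ∈ Dom D b, ρ (δ * ε) x = ρ δ (ρ ε x)
  hol : ∀ δ, DifferentiableOn ℂ (ρ δ) (Dom D b)
  properlyDiscontinuous : ∀ K ⊆ Dom D b, IsCompact K → {δ : Δ | (ρ δ '' K ∩ K).Nonempty}.Finite
  cocompact : ∃ K ⊆ Dom D b, IsCompact K ∧ ∀ x ∈ Dom D b, ∃ δ, ρ δ x ∈ K

/-- The elements of `Δ0` preserve the subbundle `T_D` of the tangent bundle of `D × ℂ^b` and each
of the `b` coordinate line subbundles of `ℂ^b`: the entries of their Jacobian matrices vanish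
outside of the block of `D` and of the diagonal. -/
def PreservesSplitting {a b : ℕ} (D : Set (Fin a → ℂ)) {Δ : Type*} [Group Δ]
    (ρ : Δ → Pt a b → Pt a b) (Δ0 : Subgroup Δ) : Prop :=
  ∀ δ ∈ Δ0, ∀ x ∈ Dom D b,
    (∀ (j : Fin b) (k : Fin a ⊕ Fin b), k ≠ Sum.inr j → Jac (ρ δ) x k (Sum.inr j) = 0) ∧
    ∀ (i : Fin a) (j : Fin b), Jac (ρ δ) x (Sum.inr j) (Sum.inl i) = 0

/-- The derivative `∂ f / ∂ x_k = (∂ f / ∂ Re x_k - i ∂ f / ∂ Im x_k) / 2`. -/
noncomputable def partialZ {a b : ℕ} (k : Fin a ⊕ Fin b) (f : Pt a b → ℂ) (x : Pt a b) : ℂ :=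
  (fderiv ℝ f x (Pi.single k 1) - Complex.I * fderiv ℝ f x (Pi.single k Complex.I)) / 2

/-- `i ∑ g_{jk} d x_j ∧ d \bar x_k` is a Kähler form on the quotient: the matrix `g` is of class
`C^1` and positive definite, the form is closed and it is invariant under `Δ`. -/
structure IsKahler {a b : ℕ} (D : Set (Fin a → ℂ)) {Δ : Type*} [Group Δ]
    (ρ : Δ → Pt a b → Pt a b)
    (g : Pt a b → Matrix (Fin a ⊕ Fin b) (Fin a ⊕ Fin b) ℂ) : Prop where
  smooth : ∀ i j, ContDiffOn ℝ 1 (fun x => g x i j) (Dom D b)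
  pos : ∀ x ∈ Dom D b, (g x).PosDef
  closed : ∀ x ∈ Dom D b, ∀ i j k,
    partialZ i (fun y => g y j k) x = partialZ j (fun y => g y i k) x
  invariant : ∀ δ, ∀ x ∈ Dom D b,
    (Jac (ρ δ) x)ᵀ * g (ρ δ x) * (Jac (ρ δ) x).map star = g x

/-- `s` is a holomorphic section of the bundle `(Ω^p_X)^{⊗ m}` of `X`: `s x v` is its value at `x`
on the tangent vectors `v k i`, `k < m`, `i < p`. -/
structure IsTensorForm {a b : ℕ} (D : Set (Fin a → ℂ)) {Δ : Type*} [Group Δ]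
    (ρ : Δ → Pt a b → Pt a b) (p m : ℕ) (s : Pt a b → (Fin m → Fin p → Pt a b) → ℂ) : Prop where
  hol : ∀ v, DifferentiableOn ℂ (fun x => s x v) (Dom D b)
  invariant : ∀ δ, ∀ x ∈ Dom D b, ∀ v,
    s (ρ δ x) (fun k i => fderiv ℂ (ρ δ) x (v k i)) = s x v

/-- `X` has a Bogomolov sheaf in degree `p ≥ 1`: a saturated subsheaf `L` of rank one of `Ω^p_X`
with Iitaka dimension `p`. Explicitly: there are `p + 1` sections `s_0, ..., s_p` of a power
`L^m ⊆ (Ω^p_X)^{⊗ m}`, `m ≥ 1`, such that the `p` meromorphic functions `s_i / s_0` have linearly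
independent differentials at some point. The sections belong to a power `L^m` of a subsheaf `L` of
rank one if and only if at every point `x` they are multiples of `ω ⊗ ... ⊗ ω` for one alternating
form `ω = ω x` of degree `p`. -/
def HasBogomolovSheaf {a b : ℕ} (D : Set (Fin a → ℂ)) {Δ : Type*} [Group Δ]
    (ρ : Δ → Pt a b → Pt a b) (p : ℕ) : Prop :=
  1 ≤ p ∧ ∃ m : ℕ, 1 ≤ m ∧ ∃ (s : Fin (p + 1) → Pt a b → (Fin m → Fin p → Pt a b) → ℂ)
    (c : Fin (p + 1) → Pt a b → ℂ) (ω : Pt a b → (Pt a b) [⋀^Fin p]→ₗ[ℂ] ℂ),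
    (∀ i, IsTensorForm D ρ p m (s i)) ∧
    (∀ i, ∀ x ∈ Dom D b, ∀ v, s i x v = c i x * ∏ k, ω x (v k)) ∧
    ∃ x₀ ∈ Dom D b, ∃ v₀, s 0 x₀ v₀ ≠ 0 ∧
      LinearIndependent ℂ fun i : Fin p => fderiv ℂ (fun x => s i.succ x v₀ / s 0 x v₀) x₀

/-- `X` is special (Campana): it has no Bogomolov sheaf. -/
def IsSpecial {a b : ℕ} (D : Set (Fin a → ℂ)) {Δ : Type*} [Group Δ]
    (ρ : Δ → Pt a b → Pt a b) : Prop :=
  ∀ p, ¬ HasBogomolovSheaf D ρ p

theorem isSpecial_iff {a b : ℕ} (D : Set (Fin a → ℂ)) {Δ : Type*} [Group Δ]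
    (ρ : Δ → Pt a b → Pt a b) :
    IsSpecial D ρ ↔ H906.BD.S.IsSpecial (H906.BD.Tot D (Fin b)) ρ := by
  refine forall_congr' fun p => not_congr ⟨?_, ?_⟩
  · rintro ⟨hp, m, hm, s, c, ω, h1, h2, h3⟩
    exact ⟨hp, m, hm, s, c, ω, fun i => ⟨(h1 i).hol, (h1 i).invariant⟩, h2, h3⟩
  · rintro ⟨hp, m, hm, s, c, ω, h1, h2, h3⟩
    exact ⟨hp, m, hm, s, c, ω, fun i => ⟨(h1 i).hol, (h1 i).invariant⟩, h2, h3⟩

/-- `S / Δ` is a closed analytic subset of `X` (by Chow's theorem, a Zariski closed subset if `X` is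
projective): `S` is invariant and locally the set of common zeros of finitely many holomorphic
functions. -/
structure IsAnalytic {a b : ℕ} (D : Set (Fin a → ℂ)) {Δ : Type*} [Group Δ]
    (ρ : Δ → Pt a b → Pt a b) (S : Set (Pt a b)) : Prop where
  sub : S ⊆ Dom D b
  invariant : ∀ δ, ∀ x ∈ S, ρ δ x ∈ S
  equations : ∀ x ∈ Dom D b, ∃ V : Set (Pt a b), IsOpen V ∧ x ∈ V ∧ V ⊆ Dom D b ∧
    ∃ (n : ℕ) (F : Fin n → Pt a b → ℂ), (∀ i, DifferentiableOn ℂ (F i) V) ∧
      ∀ y ∈ V, (y ∈ S ↔ ∀ i, F i y = 0)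

/-- `f : ℂ → D × ℂ^b` is holomorphic. Since `ℂ` is simply connected, the holomorphic maps from `ℂ`
to the manifold `X` are the images of these maps. -/
def IsEntire {a b : ℕ} (D : Set (Fin a → ℂ)) (f : ℂ → Pt a b) : Prop :=
  Differentiable ℂ f ∧ ∀ t, f t ∈ Dom D b

/-- `X` is Brody-special: for some holomorphic map `f : ℂ → X` the image of `f` is Zariski dense,
that is, contained in no closed analytic subset of `X` except `X`. -/
def IsBrodySpecial {a b : ℕ} (D : Set (Fin a → ℂ)) {Δ : Type*} [Group Δ]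
    (ρ : Δ → Pt a b → Pt a b) : Prop :=
  ∃ f, IsEntire D f ∧ ∀ S, IsAnalytic D ρ S → Set.range f ⊆ S → S = Dom D b

theorem isAnalytic_iff {a b : ℕ} (D : Set (Fin a → ℂ)) {Δ : Type*} [Group Δ]
    (ρ : Δ → Pt a b → Pt a b) (S : Set (Pt a b)) :
    IsAnalytic D ρ S ↔ H906.BD.S.IsAnalytic (H906.BD.Tot D (Fin b)) ρ S :=
  ⟨fun h => ⟨h.sub, h.invariant, h.equations⟩, fun h => ⟨h.sub, h.invariant, h.equations⟩⟩

theorem isBrodySpecial_iff {a b : ℕ} (D : Set (Fin a → ℂ)) {Δ : Type*} [Group Δ]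
    (ρ : Δ → Pt a b → Pt a b) :
    IsBrodySpecial D ρ ↔ H906.BD.S.IsBrodySpecial (H906.BD.Tot D (Fin b)) ρ := by
  constructor
  · rintro ⟨f, hf, h⟩
    refine ⟨f, hf, Set.Subset.antisymm (fun x hx => hx.1) fun x hx => ⟨hx, fun S hS hfS => ?_⟩⟩
    rw [h S ((isAnalytic_iff D ρ S).2 hS) hfS]
    exact hx
  · rintro ⟨f, hf, h⟩
    refine ⟨f, hf, fun S hS hfS => Set.Subset.antisymm hS.sub fun x hx => ?_⟩
    have h1 : x ∈ H906.BD.S.zariskiClosure (H906.BD.Tot D (Fin b)) ρ (Set.range f) := by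
      rw [h]
      exact hx
    exact h1.2 S ((isAnalytic_iff D ρ S).1 hS) hfS

/-- **Campana's conjecture** for compact Kähler quotients `X` of `D × ℂ^b` with virtually split
tangent bundle: `X` is special if and only if it is Brody-special, if and only if `a = 0`. -/
theorem result {a b : ℕ} {D : Set (Fin a → ℂ)} (hD : IsBoundedDomain D) {Δ : Type*} [Group Δ]
    (ρ : Δ → Pt a b → Pt a b) (hρ : IsUniform D ρ) (Δ0 : Subgroup Δ) (hfin : Δ0.FiniteIndex)
    (hsplit : PreservesSplitting D ρ Δ0)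
    (g : Pt a b → Matrix (Fin a ⊕ Fin b) (Fin a ⊕ Fin b) ℂ) (hg : IsKahler D ρ g) :
    (IsSpecial D ρ ↔ IsBrodySpecial D ρ) ∧ (IsSpecial D ρ ↔ a = 0) := by
  obtain ⟨R, hR⟩ := hD.bounded.exists_norm_le
  have h1 : H906.BD.HolAct (H906.BD.Tot D (Fin b)) ρ := ⟨hρ.maps, hρ.one, hρ.mul, hρ.hol⟩
  have h2 : H906.BD.Kahler (H906.BD.Tot D (Fin b)) g := ⟨hg.smooth, hg.pos, hg.closed⟩
  have h3 : H906.BD.InvForm (H906.BD.Tot D (Fin b)) ρ g := hg.invariant
  have hs1 : ∀ γ ∈ Δ0, ∀ x ∈ H906.BD.Tot D (Fin b), ∀ j i,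
      H906.BD.Jac (ρ γ) x (Sum.inr j) (Sum.inl i) = 0 :=
    fun δ hδ x hx j i => (hsplit δ hδ x hx).2 i j
  have hs2 : ∀ γ ∈ Δ0, ∀ x ∈ H906.BD.Tot D (Fin b), ∀ j j', j ≠ j' →
      H906.BD.Jac (ρ γ) x (Sum.inr j) (Sum.inr j') = 0 := fun δ hδ x hx j j' hjj =>
    (hsplit δ hδ x hx).1 j' (Sum.inr j) fun h => hjj (Sum.inr_injective h)
  have h4 : IsSpecial D ρ ↔ a = 0 := (isSpecial_iff D ρ).trans
    (H906.BD.S.special_iff hD.isOpen hD.connected ⟨R, hR⟩ h1 hρ.properlyDiscontinuous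
      hρ.cocompact hfin hs1 hs2 h2 h3)
  have h5 : IsBrodySpecial D ρ ↔ a = 0 := (isBrodySpecial_iff D ρ).trans
    (H906.BD.S.brody_iff hD.isOpen hD.connected ⟨R, hR⟩ h1 hρ.properlyDiscontinuous
      hρ.cocompact hfin hs1 hs2 h2 h3)
  exact ⟨h4.trans h5.symm, h4⟩

end Pool.Agent.Results.MP_1209e6_ag.BoundedDomainTimesCbSpecial
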