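import Pool.Agent.H441.AC.Camp

/-!
# Special and Brody-special varieties: systems of diagonal equations suffice

MP_1209e6_ag, Q1 (Campana): a projective variety over `ℂ` is special if and only if it is Brody-special
(it contains a Zariski dense entire curve). We consider the following two types of systems of
equations.

* `Diagonal m D`, where `m ≥ 2` is fixed (for example `m = 2`) and `D` is a symmetric set of complex
  numbers which contains `1` and generates the vector space `ℂ` over `ℚ` (for example `D = ℂ`, or the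
  set of all complex numbers of absolute value `1`): `Y : ∑ j, c_ij y_j ^ m = 0`, `i < k`, with
  coefficients in `D ∪ {0}`;
* `FourTerms`: intersections of diagonal quadrics with at most four terms, of the form
  `y_p ^ 2 + y_q ^ 2 = 2 y_s ^ 2 + 2 y_t ^ 2` or `y_p ^ 2 - y_q ^ 2 = a (y_s ^ 2 - y_t ^ 2)` (here `m = 2`).

**Theorem 1.** Let `X = V(S)` be any projective variety over `ℂ` in `P^n` (any dimension, any
singularities). There are a system `Y` of the given type in `P^N` and forms `φ_0, …, φ_N` of the same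
degree, among them all monomials of this degree, so that `φ : P^n → P^N` is a closed embedding, such that
`X = φ⁻¹(Y)`, and the following lie in one of the copies `{(ζ_0 φ_0(x) : … : ζ_N φ_N(x)) : x ∈ X}`,
`ζ_j ^ m = 1`, of `X`:

* every nonconstant entire curve in `Y` (it comes from an entire curve in `X`);
* every closed subvariety of `Y` of positive dimension which is not of general type, so in particular
  every special subvariety of positive dimension.

**Theorem 2.** Let moreover `X` be irreducible, of positive dimension. If `X` is special, then `φ(X)` is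
a maximal special subvariety of `Y`; if `X` is Brody-special, then `φ(X)` is a maximal Brody-special
subvariety of `Y`. Conversely, if `φ(X)` is special or Brody-special, then so is `X`.

**Theorem 3.** In the following, `maximal` means maximal among the special (Brody-special) closed
subvarieties of positive dimension.

* All special projective varieties are Brody-special if and only if for all systems `Y` of the given
  type all maximal special subvarieties of `Y` are Brody-special.
* All Brody-special projective varieties are special if and only if for all systems `Y` of the given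
  type all maximal Brody-special subvarieties of `Y` are special.
* Q1 holds if and only if for all systems `Y` of the given type the maximal special subvarieties of `Y`
  are Brody-special and the maximal Brody-special subvarieties of `Y` are special (so that they are the
  same).

(Points are both special and Brody-special, so the varieties are assumed to have positive dimension.)

Proof. See `Pool/Agent/H441/UA`, `Pool/Agent/H441/FT`, `Pool/Agent/H441/AC`. The `m`-th powers of the
coordinates of a point of `Y` over a field are the values of a linear functional on the `m`-th powers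
of many linear forms in the monomials. Theorems of Büchi type for meromorphic functions and
for function fields which are not of general type show that the functional is the evaluation at a point
of the Veronese image of `X`. If a subvariety `V` of a copy `ζ φ(X)` contains `φ(X)`, then
`φ(X) ⊆ V ⊆ ζ φ(X) ⊆ ζ V ⊆ ⋯ ⊆ ζ ^ m φ(X) = φ(X)`.
-/

set_option autoImplicit false

namespace Pool.Agent.Results.MP_1209e6_ag.DiagonalSystemsSuffice

open MvPolynomial
open Pool.Agent.W602.GT (SubVar GeneralType Special)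
open Pool.Agent.N254.SQ (IsForm)

/-- systems of equations in `P^N` -/
abbrev Equations (N k : ℕ) : Type := Fin k → MvPolynomial (Fin (N + 1)) ℂ

/-- the systems of diagonal equations `∑ j, c_j * y_j ^ m = 0` with coefficients in `D ∪ {0}` -/
def Diagonal (m : ℕ) (D : Set ℂ) (N k : ℕ) (Y : Equations N k) : Prop :=
  ∀ i, ∃ c : Fin (N + 1) → ℂ, (∀ j, c j = 0 ∨ c j ∈ D) ∧ Y i = ∑ j, C (c j) * X j ^ m

/-- the systems of equations `y_p ^ 2 + y_q ^ 2 = 2 y_s ^ 2 + 2 y_t ^ 2` or
`y_p ^ 2 - y_q ^ 2 = a (y_s ^ 2 - y_t ^ 2)` -/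
def FourTerms (N k : ℕ) (Y : Equations N k) : Prop :=
  ∀ i, ∃ p q s t : Fin (N + 1), Y i = X p ^ 2 + X q ^ 2 - 2 * (X s ^ 2 + X t ^ 2) ∨
    ∃ a : ℂ, Y i = X p ^ 2 - X q ^ 2 - C a * (X s ^ 2 - X t ^ 2)

/-- the irreducible closed subvarieties of positive dimension of the projective variety `V(Y)`; they
are given by their function field `L` of transcendence degree `w` and their generic point `y` -/
structure Subvariety {N : ℕ} {ι : Type} (Y : ι → MvPolynomial (Fin (N + 1)) ℂ) (L : Type) [Field L]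
    [Algebra ℂ L] (w : ℕ) (y : Fin (N + 1) → L) : Prop where
  dim : 1 ≤ w
  sub : SubVar Y L w y

/-- the irreducible projective varieties of positive dimension in `P^n` -/
abbrev Variety {n : ℕ} (L : Type) [Field L] [Algebra ℂ L] (w : ℕ) (y : Fin (n + 1) → L) : Prop :=
  Subvariety (fun e : Empty => (e.elim : MvPolynomial (Fin (n + 1)) ℂ)) L w y

/-- the variety with function field `L` is special in the sense of Campana: there are no Bogomolov
sheaves -/
def IsSpecial (L : Type) [Field L] [Algebra ℂ L] (w : ℕ) : Prop := Special ℂ L w fun _ => False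

/-- the variety with generic point `y` contains a Zariski dense entire curve -/
def BrodySpecial {n : ℕ} {L : Type} [Field L] [Algebra ℂ L] (y : Fin (n + 1) → L) : Prop :=
  ∃ f : ℂ → Fin (n + 1) → ℂ, Differentiable ℂ f ∧ (∀ z, f z ≠ 0) ∧
    ∀ P : MvPolynomial (Fin (n + 1)) ℂ, IsForm P → ((∀ z, eval (f z) P = 0) ↔ aeval y P = 0)

/-- the variety with generic point `v` is contained in the one with generic point `v'` -/
def Contained {N : ℕ} {L L' : Type} [Field L] [Algebra ℂ L] [Field L'] [Algebra ℂ L']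
    (v : Fin (N + 1) → L) (v' : Fin (N + 1) → L') : Prop :=
  ∀ P : MvPolynomial (Fin (N + 1)) ℂ, IsForm P → aeval v' P = 0 → aeval v P = 0

/-- the maximal special subvarieties of positive dimension -/
structure MaximalSpecial {N k : ℕ} (Y : Equations N k) (L : Type) [Field L] [Algebra ℂ L] (w : ℕ)
    (y : Fin (N + 1) → L) : Prop where
  subvariety : Subvariety Y L w y
  special : IsSpecial L w
  maximal : ∀ (L' : Type) [Field L'] [Algebra ℂ L'] (w' : ℕ) (y' : Fin (N + 1) → L'),
    Subvariety Y L' w' y' → IsSpecial L' w' → Contained y y' → Contained y' y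

/-- the maximal Brody-special subvarieties of positive dimension -/
structure MaximalBrody {N k : ℕ} (Y : Equations N k) (L : Type) [Field L] [Algebra ℂ L] (w : ℕ)
    (y : Fin (N + 1) → L) : Prop where
  subvariety : Subvariety Y L w y
  brody : BrodySpecial y
  maximal : ∀ (L' : Type) [Field L'] [Algebra ℂ L'] (w' : ℕ) (y' : Fin (N + 1) → L'),
    Subvariety Y L' w' y' → BrodySpecial y' → Contained y y' → Contained y' y

/-- `φ` embeds `V(S)` in `V(Y)`; all nonconstant entire curves in `V(Y)` and all closed subvarieties of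
`V(Y)` of positive dimension which are not of general type come from `V(S)` -/
structure Embeds (m : ℕ) {n N k : ℕ} (S : Set (MvPolynomial (Fin (n + 1)) ℂ))
    (φ : Fin (N + 1) → MvPolynomial (Fin (n + 1)) ℂ) (Y : Equations N k) : Prop where
  mono : ∃ e, 1 ≤ e ∧ (∀ j, (φ j).IsHomogeneous e) ∧
    ∀ α : Fin (n + 1) → ℕ, ∑ i, α i = e → ∃ j, φ j = ∏ i, X i ^ α i
  points : ∀ x : Fin (n + 1) → ℂ, x ≠ 0 →
    ((∀ p ∈ S, eval x p = 0) ↔ ∀ i, eval (fun j => eval x (φ j)) (Y i) = 0)
  curves : ∀ f : ℂ → Fin (N + 1) → ℂ, Differentiable ℂ f → (∀ z, f z ≠ 0) →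
    (∀ z i, eval (f z) (Y i) = 0) → (∀ z w, ∃ b : ℂ, f w = b • f z) ∨
      ∃ (ζ : Fin (N + 1) → ℂ) (x : ℂ → Fin (n + 1) → ℂ), (∀ j, ζ j ^ m = 1) ∧
        Differentiable ℂ x ∧ (∀ z, x z ≠ 0) ∧ (∀ z, ∀ p ∈ S, eval (x z) p = 0) ∧
        ∀ z j, f z j = ζ j * eval (x z) (φ j)
  sub : ∀ (L : Type) [Field L] [Algebra ℂ L] (w : ℕ) (y : Fin (N + 1) → L),
    Subvariety Y L w y → GeneralType ℂ L w ∨
      ∃ (ζ : Fin (N + 1) → ℂ) (x : Fin (n + 1) → L) (s : L), (∀ j, ζ j ^ m = 1) ∧ s ≠ 0 ∧
        Subvariety (fun p : S => (p : MvPolynomial (Fin (n + 1)) ℂ)) L w x ∧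
        ∀ j, y j = s * (algebraMap ℂ L (ζ j) * aeval x (φ j))
  special : ∀ (L : Type) [Field L] [Algebra ℂ L] (w : ℕ) (y : Fin (N + 1) → L),
    Subvariety Y L w y → IsSpecial L w →
      ∃ (ζ : Fin (N + 1) → ℂ) (x : Fin (n + 1) → L) (s : L), (∀ j, ζ j ^ m = 1) ∧ s ≠ 0 ∧
        Subvariety (fun p : S => (p : MvPolynomial (Fin (n + 1)) ℂ)) L w x ∧
        ∀ j, y j = s * (algebraMap ℂ L (ζ j) * aeval x (φ j))

/-- the three theorems for the class `𝒴` of systems -/
structure Suffices (m : ℕ) (𝒴 : ∀ N k : ℕ, Equations N k → Prop) : Prop where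
  theorem1 : ∀ (n : ℕ) (S : Set (MvPolynomial (Fin (n + 1)) ℂ)), (∀ p ∈ S, IsForm p) →
    ∃ (N k : ℕ) (φ : Fin (N + 1) → MvPolynomial (Fin (n + 1)) ℂ) (Y : Equations N k),
      𝒴 N k Y ∧ Embeds m S φ Y
  theorem2 : ∀ (n : ℕ) (L : Type) [Field L] [Algebra ℂ L] (w : ℕ) (y : Fin (n + 1) → L),
    Variety L w y → ∃ (N k : ℕ) (φ : Fin (N + 1) → MvPolynomial (Fin (n + 1)) ℂ)
      (Y : Equations N k), 𝒴 N k Y ∧ Embeds m {p | IsForm p ∧ aeval y p = 0} φ Y ∧
      (MaximalSpecial Y L w (fun j => aeval y (φ j)) ↔ IsSpecial L w) ∧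
      (MaximalBrody Y L w (fun j => aeval y (φ j)) ↔ BrodySpecial y) ∧
      (BrodySpecial (fun j => aeval y (φ j)) ↔ BrodySpecial y)
  special_brody : (∀ (n : ℕ) (L : Type) [Field L] [Algebra ℂ L] (w : ℕ) (y : Fin (n + 1) → L),
      Variety L w y → IsSpecial L w → BrodySpecial y) ↔
    ∀ (N k : ℕ) (Y : Equations N k), 𝒴 N k Y → ∀ (L : Type) [Field L] [Algebra ℂ L] (w : ℕ)
      (y : Fin (N + 1) → L), MaximalSpecial Y L w y → BrodySpecial y
  brody_special : (∀ (n : ℕ) (L : Type) [Field L] [Algebra ℂ L] (w : ℕ) (y : Fin (n + 1) → L),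
      Variety L w y → BrodySpecial y → IsSpecial L w) ↔
    ∀ (N k : ℕ) (Y : Equations N k), 𝒴 N k Y → ∀ (L : Type) [Field L] [Algebra ℂ L] (w : ℕ)
      (y : Fin (N + 1) → L), MaximalBrody Y L w y → IsSpecial L w
  campana : (∀ (n : ℕ) (L : Type) [Field L] [Algebra ℂ L] (w : ℕ) (y : Fin (n + 1) → L),
      Variety L w y → (IsSpecial L w ↔ BrodySpecial y)) ↔
    ∀ (N k : ℕ) (Y : Equations N k), 𝒴 N k Y → ∀ (L : Type) [Field L] [Algebra ℂ L] (w : ℕ)
      (y : Fin (N + 1) → L), (MaximalSpecial Y L w y → BrodySpecial y) ∧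
        (MaximalBrody Y L w y → IsSpecial L w)

section proof

open Pool.Agent.H441.UA (FEmb vals)
open Pool.Agent.H441.DQ (dform dform_hom)
open Pool.Agent.H441.FT (IsClass exists_fin emb_sub emb_curves eqs_fin)
open Pool.Agent.H441.AC (image_sub image_max image_brody image_brody_max)
open Pool.Agent.N254.SQ (Gen Eqs)

theorem embeds_of {m n N k : ℕ} {κ γ : Type}
    {S : Set (MvPolynomial (Fin (n + 1)) ℂ)} {S₀ : Finset (MvPolynomial (Fin (n + 1)) ℂ)}
    {T : κ → MvPolynomial (Fin (n + 1)) ℂ} {G : γ → MvPolynomial (Fin (n + 1)) ℂ}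
    {φ : Fin (N + 1) → MvPolynomial (Fin (n + 1)) ℂ} {c : Fin k → Fin (N + 1) → ℂ}
    {I J : Set (Fin (N + 1))}
    (hE : FEmb m (fun p : S₀ => (p : MvPolynomial (Fin (n + 1)) ℂ)) T G φ c I J)
    (hS : ∀ (Ω : Type) [Field Ω] [Algebra ℂ Ω] (x : Fin (n + 1) → Ω),
      (∀ p : S₀, aeval x (p : MvPolynomial (Fin (n + 1)) ℂ) = 0) ↔ ∀ p ∈ S, aeval x p = 0) :
    Embeds m S φ (fun i => dform m (c i)) := by
  have hsub : ∀ (L : Type) [Field L] [Algebra ℂ L] (w : ℕ) (y : Fin (N + 1) → L),
      Subvariety (fun i => dform m (c i)) L w y → GeneralType ℂ L w ∨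
        ∃ (ζ : Fin (N + 1) → ℂ) (x : Fin (n + 1) → L) (s : L), (∀ j, ζ j ^ m = 1) ∧ s ≠ 0 ∧
          Subvariety (fun p : S => (p : MvPolynomial (Fin (n + 1)) ℂ)) L w x ∧
          ∀ j, y j = s * (algebraMap ℂ L (ζ j) * aeval x (φ j)) := by
    intro L _ _ w y hy
    rcases emb_sub hE hS hy.sub with h | ⟨ζ, x, s, h1, h2, h3, h4⟩
    · exact Or.inl h
    · exact Or.inr ⟨ζ, x, s, h1, h2, ⟨hy.dim, h3⟩, h4⟩
  refine ⟨hE.mono, fun x hx => ?_, emb_curves hE hS, hsub, fun L _ _ w y hy hs =>
    (hsub L w y hy).resolve_left fun hg =>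
      Pool.Agent.R882.LT.not_special_of_gt hy.dim hg hs⟩
  have h1 := hS ℂ x
  exact h1.symm.trans (hE.pts ℂ (RingHom.id ℂ) x hx)

/-- the image of an irreducible variety -/
theorem image {m : ℕ} {𝒴 : ∀ N k : ℕ, Equations N k → Prop} (h𝒴 : IsClass m 𝒴) {n : ℕ} {L : Type}
    [Field L] [Algebra ℂ L] {w : ℕ} {y : Fin (n + 1) → L} (hV : Variety L w y) :
    ∃ (N k : ℕ) (φ : Fin (N + 1) → MvPolynomial (Fin (n + 1)) ℂ)
      (Y : Equations N k), 𝒴 N k Y ∧ Embeds m {p | IsForm p ∧ aeval y p = 0} φ Y ∧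
      (MaximalSpecial Y L w (fun j => aeval y (φ j)) ↔ IsSpecial L w) ∧
      (MaximalBrody Y L w (fun j => aeval y (φ j)) ↔ BrodySpecial y) ∧
      (BrodySpecial (fun j => aeval y (φ j)) ↔ BrodySpecial y) := by
  have hm0 : m ≠ 0 := by
    have := h𝒴.pos
    omega
  have hy : Gen L w y := ⟨hV.sub.ne, hV.sub.gen, hV.sub.dim⟩
  obtain ⟨S, hSf, hS⟩ := eqs_fin y
  obtain ⟨N, k, φ, c, I, J, hY, hE⟩ := h𝒴.emb n S Empty Empty
    (fun p : S => (p : MvPolynomial (Fin (n + 1)) ℂ)) (fun e : Empty => e.elim)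
    (fun e : Empty => e.elim) (fun p => hSf p p.2) (fun e => e.elim) (fun e => e.elim)
  have hsub : Subvariety (fun i => dform m (c i)) L w (fun j => aeval y (φ j)) :=
    ⟨hV.dim, image_sub hE hy hS⟩
  have hb : BrodySpecial (fun j => aeval y (φ j)) ↔ BrodySpecial y :=
    ⟨fun h => (image_brody_max hm0 hE hS hV.dim hy (image_sub hE hy hS) h fun _ _ h => h).2,
      fun h => image_brody hE h⟩
  refine ⟨N, k, φ, _, hY, embeds_of hE hS, ⟨fun h => h.special, fun h => ⟨hsub, h, ?_⟩⟩,
    ⟨fun h => hb.1 h.brody, fun h => ⟨hsub, hb.2 h, ?_⟩⟩, hb⟩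
  · intro L' _ _ w' y' hy' hs hle
    exact image_max hm0 hE hS hy'.sub
      (fun hg => Pool.Agent.R882.LT.not_special_of_gt hy'.dim hg hs) hle
  · intro L' _ _ w' y' hy' hbr hle
    exact (image_brody_max hm0 hE hS hV.dim hy hy'.sub hbr hle).1

theorem suffices_of {m : ℕ} {𝒴 : ∀ N k : ℕ, Equations N k → Prop} (h𝒴 : IsClass m 𝒴) :
    Suffices m 𝒴 := by
  have hV : ∀ {N k : ℕ} {Y : Equations N k} {L : Type} [Field L] [Algebra ℂ L] {w : ℕ}
      {y : Fin (N + 1) → L}, Subvariety Y L w y → Variety L w y := fun h =>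
    ⟨h.dim, ⟨h.sub.ne, fun e => e.elim, h.sub.gen, h.sub.dim⟩⟩
  have h1 : (∀ (n : ℕ) (L : Type) [Field L] [Algebra ℂ L] (w : ℕ) (y : Fin (n + 1) → L),
      Variety L w y → IsSpecial L w → BrodySpecial y) ↔
      ∀ (N k : ℕ) (Y : Equations N k), 𝒴 N k Y → ∀ (L : Type) [Field L] [Algebra ℂ L] (w : ℕ)
        (y : Fin (N + 1) → L), MaximalSpecial Y L w y → BrodySpecial y := by
    constructor
    · intro h N k Y _ L _ _ w y hy
      exact h N L w y (hV hy.subvariety) hy.special
    · intro h n L _ _ w y hy hs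
      obtain ⟨N, k, φ, Y, hY, -, h2, -, h3⟩ := image h𝒴 hy
      exact h3.1 (h N k Y hY L w _ (h2.2 hs))
  have h2 : (∀ (n : ℕ) (L : Type) [Field L] [Algebra ℂ L] (w : ℕ) (y : Fin (n + 1) → L),
      Variety L w y → BrodySpecial y → IsSpecial L w) ↔
      ∀ (N k : ℕ) (Y : Equations N k), 𝒴 N k Y → ∀ (L : Type) [Field L] [Algebra ℂ L] (w : ℕ)
        (y : Fin (N + 1) → L), MaximalBrody Y L w y → IsSpecial L w := by
    constructor
    · intro h N k Y _ L _ _ w y hy
      exact h N L w y (hV hy.subvariety) hy.brody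
    · intro h n L _ _ w y hy hs
      obtain ⟨N, k, φ, Y, hY, -, -, h2, -⟩ := image h𝒴 hy
      exact h N k Y hY L w _ (h2.2 hs)
  refine ⟨fun n S hS => ?_, fun n L _ _ w y hy => image h𝒴 hy, h1, h2,
    fun h N k Y hY L _ _ w y => ⟨?_, ?_⟩, fun h n L _ _ w y hy => ⟨?_, ?_⟩⟩
  · obtain ⟨S₀, hS₀, hSS⟩ := exists_fin S
    obtain ⟨N, k, φ, c, I, J, hY, hE⟩ := h𝒴.emb n S₀ Empty Empty
      (fun p : S₀ => (p : MvPolynomial (Fin (n + 1)) ℂ)) (fun e : Empty => e.elim)
      (fun e : Empty => e.elim) (fun p => hS p (hS₀ p.2)) (fun e => e.elim) (fun e => e.elim)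
    exact ⟨N, k, φ, _, hY, embeds_of hE hSS⟩
  · exact h1.1 (fun n L _ _ w y hy => (h n L w y hy).1) N k Y hY L w y
  · exact h2.1 (fun n L _ _ w y hy => (h n L w y hy).2) N k Y hY L w y
  · exact h1.2 (fun N k Y hY L _ _ w y => (h N k Y hY L w y).1) n L w y hy
  · exact h2.2 (fun N k Y hY L _ _ w y => (h N k Y hY L w y).2) n L w y hy

end proof

theorem result :
    (∀ m : ℕ, 2 ≤ m → ∀ D : Set ℂ, 1 ∈ D → (∀ x ∈ D, -x ∈ D) → Submodule.span ℚ D = ⊤ →
      Suffices m (Diagonal m D)) ∧
    Suffices 2 FourTerms :=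
  ⟨fun _ hm _ hD1 hD2 hD3 => suffices_of (Pool.Agent.H441.FT.isClass_diagonal hm hD1 hD2 hD3),
    suffices_of Pool.Agent.H441.FT.isClass_four⟩

end Pool.Agent.Results.MP_1209e6_ag.DiagonalSystemsSuffice
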