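import Pool.Agent.H918.S.Camp

/-!
Campana's analytic conjecture for the varieties which dominate a variety of general type which is, up
to a finite unramified covering, fibred over an elliptic curve.
-/

set_option autoImplicit false

open Filter Topology FF Metric LinearAlgebra.Projectivization Pool.Agent.W602.GT
  Pool.Agent.N154.GG Pool.Agent.H918.SS Pool.Agent.H918.SP

/-- Let `X = {F = 0}` be an irreducible projective variety of general type of dimension `d ≥ 2`, which
may be singular, and let `X' = {F' = 0}` be a finite unramified covering of `X` with a holomorphic map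
`α` to an elliptic curve `E = ℂ / L`, for example `X' = X`. Suppose that there is a finite set `B` of
points of `E` such that `X'` has a semistable reduction which is unramified outside of the fibres over
`B` (`HasReduction`). By the theorems of Deligne and Mumford and of Arakelov, all smooth projective
surfaces of general type with a holomorphic map with connected fibres to an elliptic curve satisfy
this. Let `H` be a form, not identically zero on `X`, which is zero at the images of the points of the
fibres over `B`.

Then there is a proper Zariski closed subset `{G = 0}` of `X` such that the following holds for all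
irreducible projective varieties `V`, of any dimension, with a dominant rational map from `V` to `X`
(`RationalMap`, given by forms `R`): every entire curve in `V` is contained in a fibre of the rational
map, or its image in `X` lies in `{G = 0}` (points of indeterminacy included). In particular, no
entire curve is Zariski dense in `V`, so `V` is not Brody-special; and `V` is not special in the sense
of Campana. So the conjecture of Campana, that `V` is special if and only if it is Brody-special, is
true for all these `V`, for example for `V = X`. -/
theorem Pool.Agent.Results.MP_1209e6_ag.FibredCampana.result {m n : ℕ} {ι ι' : Type}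
    (F : ι → MvPolynomial (Fin (n + 1)) ℂ) (d : ℕ) (K : Type) [Field K] [Algebra ℂ K]
    (y : Fin (n + 1) → K) (hX : ProjVariety F d y) (hd : 2 ≤ d) (hK : GeneralType ℂ K d)
    (F' : ι' → MvPolynomial (Fin (m + 1)) ℂ) (hF' : ∀ i, IsForm (F' i))
    (Q : Fin (n + 1) → MvPolynomial (Fin (m + 1)) ℂ) (hQ : EtaleCovering F F' Q) (L : PeriodPair)
    (α : (Fin (m + 1) → ℂ) → ℂ ⧸ L.lattice) (hα : HolToTorus (Cone F') L α)
    (B : Set (ℂ ⧸ L.lattice)) (hB : B.Finite) (hred : HasReduction F' α B)
    (H : MvPolynomial (Fin (n + 1)) ℂ) (hH : IsForm H) (hy : val y H ≠ 0)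
    (hHB : ∀ u ∈ Cone F, (∃ b ∈ B, OverPoint F' α Q b u) → val u H = 0) :
    ∃ G : MvPolynomial (Fin (n + 1)) ℂ, IsForm G ∧ val y G ≠ 0 ∧
      ∀ (N : ℕ) (M : Type) [Field M] [Algebra ℂ M] (w : ℕ) (z : Fin (N + 1) → M),
        IsVariety w z → ∀ (σ : K →ₐ[ℂ] M) (R : Fin (n + 1) → MvPolynomial (Fin (N + 1)) ℂ),
        RationalMap z y σ R →
        (∀ f, EntireMap z f → (∀ t, val (fun j => val (f t) (R j)) G = 0) ∨
          ∀ s t i j, val (f s) (R i) * val (f t) (R j) = val (f s) (R j) * val (f t) (R i)) ∧
        ¬ BrodySpecial z ∧ ¬ Special ℂ M w fun _ => False := by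
  obtain ⟨S, k, -, -, -, -, -, -, -, G, -, -, -, hG⟩ := allV hX hd hF' hQ hα hB hred
  obtain ⟨h1, h2, -, h4, -, -⟩ := hG H hH hy hHB
  have hent := ent_conv hX h1 h4
  refine ⟨G * H, h1, h2, fun N M _ _ w z hz σ R hR => ⟨fun f hf => ?_, ?_, ?_⟩⟩
  · by_cases h5 : ∃ t, val (f t) (MvPolynomial.bind₁ R (G * H)) ≠ 0
    · exact Or.inr (entire_fibre hX hR h1 hent hf h5)
    · left
      intro t
      push Not at h5
      rw [← val_bind]
      exact h5 t
  · exact not_brody hX (by omega) hR h1 h2 hent
  · exact not_special' hX (by omega) hK hz σ
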