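import Pool.Agent.H911.KE.Dense

/-!
# Special and Brody-special varieties of dimension at most `m`: hypersurfaces of dimension `2 m - k` with a
# singular locus of dimension less than `k`

Q1 (Campana): a projective variety over `ℂ` is special if and only if it is Brody-special, which means that
it contains a Zariski dense entire curve. (Points are special and Brody-special; in the following all
varieties and subvarieties are of positive dimension.)

Let `0 ≤ k ≤ m` and `N = 2 m + 1 - k`. We consider hypersurfaces `Y` of dimension `N - 1 = 2 m - k` in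
`P^N` whose singular locus is of dimension less than `k`. For `k = 0` these are the smooth hypersurfaces
of dimension `2 m`; for `k = m - 1` the hypersurfaces of dimension `m + 1` whose singular locus is of
dimension at most `m - 2` (for `m = 2`: threefolds in `P^4` with isolated singularities). Such a `Y` is
called hyperbolic outside of an irreducible closed subset `X'` if `X' ⊆ Y`, the singular points of `Y` and
all nonconstant entire curves in `Y` are in `X'`, and all closed subvarieties of `Y` of positive dimension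
which are not of general type are in `X'`.

(0) Models. Every irreducible projective variety `X` of dimension `w ≤ m` (with any singularities) has a
linear projection (the linear forms `A_0, …, A_N` have no common zeros on `X`, so it is a finite morphism,
birational onto its image `X'` in `P^N`) such that for all large `D`, with forms `Q_t` of the same degree
`e`, the hypersurface `Y : ∑ t, Q_t(y) (y_0 + t y_1 + ⋯ + t^N y_N)^D = 0` is hyperbolic outside of `X'`, with
a singular locus of dimension less than `k`. `X'` is special (Brody-special) if and only if `X` is.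

(0′) Let `Y` be a hypersurface in `P^N` which is hyperbolic outside of `X'`. The closed subvarieties of `Y`
which are not contained in `X'` (for instance `Y` and all subvarieties of dimension larger than `m`) are
neither special nor Brody-special, so Q1 is true for them. `X'` is a maximal special (Brody-special)
subvariety of `Y` if and only if `X'` is special (Brody-special).

(1) ⟺ (2) ⟺ (3), for all `k ≤ m` and every choice of one exponent `δ(e) ≥ D₁(e)` for each `e`:
(1) Q1 for all irreducible projective varieties of dimension at most `m`, with any singularities;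
(2) for all hypersurfaces `Y` in `P^N`, with a singular locus of dimension less than `k`, which are
hyperbolic outside of an irreducible closed subset of dimension at most `m`, the maximal special
subvarieties of `Y` are Brody-special and the maximal Brody-special subvarieties of `Y` are special (so that
they are the same);
(3) the same for the hypersurfaces `∑ t, Q_t(y) (y_0 + t y_1 + ⋯ + t^N y_N)^D = 0` only, with `N (2 N + 1)`
forms `Q_t` of the same degree `e` and `D = δ(e)`: for each degree `e` only one linear system of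
hypersurfaces, of degree `e + δ(e)`.
The same is proved for each of the two implications of Q1.

Proof. For (0) see the file `SmallSingularLocus` of MP_8d161d_ag: the linear projections and a Jacobian
argument at the points of `X'` on top of the library modules `N254.SQ`. Special varieties are not of general
type, and a Zariski dense entire curve is not constant, so special and Brody-special subvarieties of `Y`
are contained in `X'`. A Zariski dense entire curve in `X'` can be lifted to `X`, because the projection is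
finite and the centre of its inverse is a proper closed subset.
-/

set_option autoImplicit false

namespace Pool.Agent.Results.MP_1209e6_ag.SmallSingularLocus

open MvPolynomial
open Pool.Agent.W602.GT (SubVar GeneralType Special coords)
open Pool.Agent.N254.SQ (IsForm Eqs powerForm)

/-- The singular locus of the hypersurface `A = 0` is of dimension less than `k`: some `k` linear forms
have no common zero on it. For `k = 0` the hypersurface is smooth. -/
def SmallSing {N : ℕ} (k : ℕ) (A : MvPolynomial (Fin (N + 1)) ℂ) : Prop :=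
  ∃ l : Fin k → Fin (N + 1) → ℂ, ∀ x : Fin (N + 1) → ℂ, x ≠ 0 → (∀ i, ∑ j, l i j * x j = 0) →
    ∃ j, eval x (pderiv j A) ≠ 0

/-- the singular locus of the hypersurface `A = 0` is of dimension less than `k`, the hypersurface
contains the irreducible closed set `X'` with generic point `z`, its singular points and its nonconstant
entire curves are in `X'`, and its closed subvarieties of positive dimension are of general type or lie
in `X'` -/
def HyperbolicOutside {N : ℕ} (k : ℕ) (A : MvPolynomial (Fin (N + 1)) ℂ) {L : Type} [Field L]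
    [Algebra ℂ L] (z : Fin (N + 1) → L) : Prop :=
  SmallSing k A ∧ aeval z A = 0 ∧
    (∀ x : Fin (N + 1) → ℂ, x ≠ 0 → (∀ j, eval x (pderiv j A) = 0) → ∀ p ∈ Eqs z, eval x p = 0) ∧
    (∀ f : ℂ → Fin (N + 1) → ℂ, Differentiable ℂ f → (∀ t, f t ≠ 0) → (∀ t, eval (f t) A = 0) →
      (∀ s t, ∃ c : ℂ, f t = c • f s) ∨ ∀ t, ∀ p ∈ Eqs z, eval (f t) p = 0) ∧
    ∀ (L' : Type) [Field L'] [Algebra ℂ L'] (w : ℕ) (y : Fin (N + 1) → L'), 1 ≤ w →
      SubVar (fun _ : Unit => A) L' w y → GeneralType ℂ L' w ∨ ∀ p ∈ Eqs z, aeval y p = 0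

/-- the irreducible projective varieties in `P^n`, given by their function field `L`, their dimension `w`
and their generic point `y` -/
def Variety {n : ℕ} (L : Type) [Field L] [Algebra ℂ L] (w : ℕ) (y : Fin (n + 1) → L) : Prop :=
  SubVar (fun p : (∅ : Set (MvPolynomial (Fin (n + 1)) ℂ)) => (p : MvPolynomial (Fin (n + 1)) ℂ))
    L w y

/-- The singular locus of the hypersurface `A = 0` is of dimension less than `k`, and the hypersurface is
hyperbolic outside of some irreducible closed subset of dimension at most `m`. -/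
def Outside {N : ℕ} (m k : ℕ) (A : MvPolynomial (Fin (N + 1)) ℂ) : Prop :=
  ∃ (L : Type) (_ : Field L) (_ : Algebra ℂ L) (w : ℕ) (z : Fin (N + 1) → L), w ≤ m ∧
    Variety L w z ∧ HyperbolicOutside k A z

/-- the variety with function field `L` is special in the sense of Campana: there are no Bogomolov
sheaves -/
def IsSpecial (L : Type) [Field L] [Algebra ℂ L] (w : ℕ) : Prop := Special ℂ L w fun _ => False

/-- the variety with generic point `y` contains a Zariski dense entire curve -/
def BrodySpecial {n : ℕ} {L : Type} [Field L] [Algebra ℂ L] (y : Fin (n + 1) → L) : Prop :=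
  ∃ f : ℂ → Fin (n + 1) → ℂ, Differentiable ℂ f ∧ (∀ z, f z ≠ 0) ∧
    ∀ P : MvPolynomial (Fin (n + 1)) ℂ, IsForm P → ((∀ z, eval (f z) P = 0) ↔ aeval y P = 0)

/-- the variety with generic point `v` is contained in the one with generic point `v'` -/
def Contained {N : ℕ} {L L' : Type} [Field L] [Algebra ℂ L] [Field L'] [Algebra ℂ L']
    (v : Fin (N + 1) → L) (v' : Fin (N + 1) → L') : Prop :=
  ∀ P : MvPolynomial (Fin (N + 1)) ℂ, IsForm P → aeval v' P = 0 → aeval v P = 0

/-- the variety with generic point `y` is maximal among the special closed subvarieties of positive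
dimension of the hypersurface `A = 0` -/
structure MaximalSpecial {N : ℕ} (A : MvPolynomial (Fin (N + 1)) ℂ) (L : Type) [Field L]
    [Algebra ℂ L] (w : ℕ) (y : Fin (N + 1) → L) : Prop where
  dim : 1 ≤ w
  sub : SubVar (fun _ : Unit => A) L w y
  special : IsSpecial L w
  maximal : ∀ (L' : Type) [Field L'] [Algebra ℂ L'] (w' : ℕ) (y' : Fin (N + 1) → L'), 1 ≤ w' →
    SubVar (fun _ : Unit => A) L' w' y' → IsSpecial L' w' → Contained y y' → Contained y' y

/-- the variety with generic point `y` is maximal among the closed subvarieties of positive dimension of the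
hypersurface `A = 0` which contain a Zariski dense entire curve -/
structure MaximalBrody {N : ℕ} (A : MvPolynomial (Fin (N + 1)) ℂ) (L : Type) [Field L]
    [Algebra ℂ L] (w : ℕ) (y : Fin (N + 1) → L) : Prop where
  dim : 1 ≤ w
  sub : SubVar (fun _ : Unit => A) L w y
  brody : BrodySpecial y
  maximal : ∀ (L' : Type) [Field L'] [Algebra ℂ L'] (w' : ℕ) (y' : Fin (N + 1) → L'), 1 ≤ w' →
    SubVar (fun _ : Unit => A) L' w' y' → BrodySpecial y' → Contained y y' → Contained y' y

/-- special varieties of dimension `1, …, m` are Brody-special -/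
def SpecialToBrody (m : ℕ) : Prop :=
  ∀ (n : ℕ) (L : Type) [Field L] [Algebra ℂ L] (w : ℕ) (y : Fin (n + 1) → L), 1 ≤ w → w ≤ m →
    Variety L w y → IsSpecial L w → BrodySpecial y

/-- Brody-special varieties of dimension `1, …, m` are special -/
def BrodyToSpecial (m : ℕ) : Prop :=
  ∀ (n : ℕ) (L : Type) [Field L] [Algebra ℂ L] (w : ℕ) (y : Fin (n + 1) → L), 1 ≤ w → w ≤ m →
    Variety L w y → BrodySpecial y → IsSpecial L w

/-- the maximal special subvarieties of the hypersurface `A = 0` are Brody-special -/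
def MaximalSpecialToBrody {N : ℕ} (A : MvPolynomial (Fin (N + 1)) ℂ) : Prop :=
  ∀ (L : Type) [Field L] [Algebra ℂ L] (w : ℕ) (y : Fin (N + 1) → L), MaximalSpecial A L w y →
    BrodySpecial y

/-- the maximal Brody-special subvarieties of the hypersurface `A = 0` are special -/
def MaximalBrodyToSpecial {N : ℕ} (A : MvPolynomial (Fin (N + 1)) ℂ) : Prop :=
  ∀ (L : Type) [Field L] [Algebra ℂ L] (w : ℕ) (y : Fin (N + 1) → L), MaximalBrody A L w y →
    IsSpecial L w

/-- The statement `V m` on the varieties of dimension at most `m` is equivalent to the statement `W` for all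
hypersurfaces in `P^N` with a singular locus of dimension less than `k` which are hyperbolic outside of an
irreducible closed subset of dimension at most `m`, and to the statement `W` for those of them with an
equation `∑ t, Q_t(y) (y_0 + t y_1 + ⋯ + t^N y_N)^D = 0`, with `N (2 N + 1)` forms `Q_t` of the same degree `e`
and `D = δ e`. -/
def Equivalent (m k N : ℕ) (δ : ℕ → ℕ) (V : ℕ → Prop) (W : MvPolynomial (Fin (N + 1)) ℂ → Prop) :
    Prop :=
  [V m,
    ∀ A : MvPolynomial (Fin (N + 1)) ℂ, IsForm A → Outside m k A → W A,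
    ∀ (e : ℕ) (Q : Fin (N * (2 * N + 1)) → MvPolynomial (Fin (N + 1)) ℂ),
      (∀ t, (Q t).IsHomogeneous e) → Outside m k (powerForm (δ e) Q) →
      W (powerForm (δ e) Q)].TFAE

section proof

open Pool.Agent.N254.SQ (Gen)
open Pool.Agent.H911.KD (PropK)
open Pool.Agent.H911.KE (eqs_dim dense_in special_in)

theorem outside {N k : ℕ} {A : MvPolynomial (Fin (N + 1)) ℂ} {L : Type} [Field L] [Algebra ℂ L]
    {z : Fin (N + 1) → L} (h : PropK k z A) : HyperbolicOutside k A z :=
  ⟨h.sing, h.van L z fun _ hp => hp.2, h.out, h.curves,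
    fun L' _ _ w y hw hy => h.sub L' w y hw hy⟩

theorem var_of {n : ℕ} {L : Type} [Field L] [Algebra ℂ L] {w : ℕ} {y : Fin (n + 1) → L}
    (h : Gen L w y) : Variety L w y :=
  ⟨h.ne, fun p => absurd p.2 (Set.notMem_empty _), h.gen, h.dim⟩

section

variable {N k : ℕ} {A : MvPolynomial (Fin (N + 1)) ℂ} {L : Type} [Field L] [Algebra ℂ L] {w : ℕ}
  {z : Fin (N + 1) → L}

/-- the dimension of a subvariety of `X'` -/
theorem dim_le (hz : Variety L w z) {L' : Type} [Field L'] [Algebra ℂ L'] {w' : ℕ}
    {y : Fin (N + 1) → L'} (hy : SubVar (fun _ : Unit => A) L' w' y)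
    (h : ∀ p ∈ Eqs z, aeval y p = 0) : w' ≤ w :=
  eqs_dim ⟨hz.ne, hz.gen, hz.dim⟩ L' w' y ⟨hy.ne, fun p => h p.1 p.2, hy.gen, hy.dim⟩

theorem max_special (hA : IsForm A) (hO : HyperbolicOutside k A z) (hw : 1 ≤ w)
    (hz : Variety L w z) (h : IsSpecial L w) : MaximalSpecial A L w z :=
  ⟨hw, ⟨hz.ne, fun _ => hO.2.1, hz.gen, hz.dim⟩, h, fun _ _ _ _ _ hw' hy' hs _ P hP h0 =>
    special_in hO.2.2.2.2 hw' hy' hs P ⟨hP, h0⟩⟩

theorem max_brody (hA : IsForm A) (hO : HyperbolicOutside k A z) (hw : 1 ≤ w)
    (hz : Variety L w z) (h : BrodySpecial z) : MaximalBrody A L w z :=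
  ⟨hw, ⟨hz.ne, fun _ => hO.2.1, hz.gen, hz.dim⟩, h, fun _ _ _ _ _ hw' hy' hs _ P hP h0 =>
    dense_in hO.2.2.2.1 hA hw' hy' hs P ⟨hP, h0⟩⟩

end

end proof

/-- **Campana's conjecture (special varieties are the ones with a Zariski dense entire curve) for
projective varieties of dimension at most `m` is equivalent to a statement on hypersurfaces of dimension
`2 m - k`, with a singular locus of dimension less than `k`, which are hyperbolic outside of a closed subset
of dimension at most `m`.** -/
theorem result (m k N : ℕ) (hk : k ≤ m) (hN : N + k = 2 * m + 1) : ∃ D₁ : ℕ → ℕ,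
    -- (0) every variety of dimension at most `m` has a model in hypersurfaces of dimension `2 m - k`
    -- which are hyperbolic outside of the model
    (∀ (n : ℕ) (L : Type) [Field L] [Algebra ℂ L] (w : ℕ) (y : Fin (n + 1) → L), w ≤ m →
      Variety L w y →
      ∃ (e : ℕ) (A : Fin (N + 1) → MvPolynomial (Fin (n + 1)) ℂ), 1 ≤ e ∧
        (∀ i, (A i).IsHomogeneous 1) ∧
        (∀ x : Fin (n + 1) → ℂ, x ≠ 0 → (∀ p ∈ Eqs y, eval x p = 0) → ∃ i, eval x (A i) ≠ 0) ∧
        coords ℂ (fun i => aeval y (A i)) = ⊤ ∧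
        (BrodySpecial (fun i => aeval y (A i)) ↔ BrodySpecial y) ∧
        ∀ D, D₁ e ≤ D → ∃ Q : Fin (N * (2 * N + 1)) → MvPolynomial (Fin (N + 1)) ℂ,
          (∀ t, (Q t).IsHomogeneous e) ∧
          HyperbolicOutside k (powerForm D Q) fun i => aeval y (A i)) ∧
    -- (0') hypersurfaces which are hyperbolic outside of `X'`: subvarieties which are not in `X'` are
    -- neither special nor Brody-special; `X'` is maximal
    (∀ (A : MvPolynomial (Fin (N + 1)) ℂ) (L : Type) [Field L] [Algebra ℂ L]
      (z : Fin (N + 1) → L), IsForm A → HyperbolicOutside k A z →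
      (∀ (L' : Type) [Field L'] [Algebra ℂ L'] (w : ℕ) (y : Fin (N + 1) → L'), 1 ≤ w →
        SubVar (fun _ : Unit => A) L' w y → (∃ p ∈ Eqs z, aeval y p ≠ 0) →
          ¬ IsSpecial L' w ∧ ¬ BrodySpecial y) ∧
      ∀ w : ℕ, 1 ≤ w → Variety L w z →
        (MaximalSpecial A L w z ↔ IsSpecial L w) ∧ (MaximalBrody A L w z ↔ BrodySpecial z)) ∧
    -- (1) - (3) the equivalences for both implications and for Q1
    ∀ δ : ℕ → ℕ, (∀ e, D₁ e ≤ δ e) →
      Equivalent m k N δ SpecialToBrody MaximalSpecialToBrody ∧
      Equivalent m k N δ BrodyToSpecial MaximalBrodyToSpecial ∧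
      Equivalent m k N δ (fun m => SpecialToBrody m ∧ BrodyToSpecial m)
        (fun A => MaximalSpecialToBrody A ∧ MaximalBrodyToSpecial A) := by
  obtain ⟨D₁, H⟩ := Pool.Agent.H911.KD.exists_bounds N k (by omega)
  have K : ∀ (n : ℕ) (L : Type) [Field L] [Algebra ℂ L] (w : ℕ) (y : Fin (n + 1) → L), w ≤ m →
      Variety L w y →
      ∃ (e : ℕ) (A : Fin (N + 1) → MvPolynomial (Fin (n + 1)) ℂ), 1 ≤ e ∧
        (∀ i, (A i).IsHomogeneous 1) ∧
        (∀ x : Fin (n + 1) → ℂ, x ≠ 0 → (∀ p ∈ Eqs y, eval x p = 0) → ∃ i, eval x (A i) ≠ 0) ∧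
        coords ℂ (fun i => aeval y (A i)) = ⊤ ∧ Variety L w (fun i => aeval y (A i)) ∧
        (BrodySpecial (fun i => aeval y (A i)) ↔ BrodySpecial y) ∧
        ∀ D, D₁ e ≤ D → ∃ Q : Fin (N * (2 * N + 1)) → MvPolynomial (Fin (N + 1)) ℂ,
          (∀ t, (Q t).IsHomogeneous e) ∧ IsForm (powerForm D Q) ∧
          HyperbolicOutside k (powerForm D Q) fun i => aeval y (A i) := by
    intro n L _ _ w y hwm hy
    have hgen : Pool.Agent.N254.SQ.Gen L w y := ⟨hy.ne, hy.gen, hy.dim⟩
    obtain ⟨A, hA⟩ := Pool.Agent.H911.GD.mdl_proj hgen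
    obtain ⟨e, z, R, K, he, hz, hP, hQ⟩ := Pool.Agent.H911.KD.exists_models H hgen
      (show w < w + 1 by omega) (by omega) (by omega) hA
    have hzA := hP.z_eq
    refine ⟨e, _, he, hP.homA, fun x hx hxE => hP.reg ℂ x hx hxE, ?_, ?_, ?_, fun D hD => ?_⟩
    · rw [hzA]
      exact hz.gen
    · rw [hzA]
      exact var_of hz
    · rw [hzA]
      exact Pool.Agent.H911.KE.dense_iff hP
    · obtain ⟨Q, hQ1, hQ2⟩ := hQ D hD
      refine ⟨Q, hQ1, hQ2.form, ?_⟩
      rw [hzA]
      exact outside hQ2
  have h23 : ∀ (δ : ℕ → ℕ) (W : MvPolynomial (Fin (N + 1)) ℂ → Prop),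
      (∀ A : MvPolynomial (Fin (N + 1)) ℂ, IsForm A → Outside m k A → W A) →
      ∀ (e : ℕ) (Q : Fin (N * (2 * N + 1)) → MvPolynomial (Fin (N + 1)) ℂ),
        (∀ t, (Q t).IsHomogeneous e) → Outside m k (powerForm (δ e) Q) →
        W (powerForm (δ e) Q) := fun δ W h e Q hQ hout =>
    h _ ⟨e + δ e, Pool.Agent.H911.GD.power_hom hQ⟩ hout
  -- from varieties to hypersurfaces
  have hS12 : SpecialToBrody m → ∀ A : MvPolynomial (Fin (N + 1)) ℂ, IsForm A →
      Outside m k A → MaximalSpecialToBrody A := by
    rintro h A hA ⟨L, _, _, w, z, hwm, hz, hO⟩ L' _ _ w' y hy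
    have h1 := dim_le hz hy.sub
      (Pool.Agent.H911.KE.special_in hO.2.2.2.2 hy.dim hy.sub hy.special)
    exact h N L' w' y hy.dim (h1.trans hwm) (var_of ⟨hy.sub.ne, hy.sub.gen, hy.sub.dim⟩)
      hy.special
  have hB12 : BrodyToSpecial m → ∀ A : MvPolynomial (Fin (N + 1)) ℂ, IsForm A →
      Outside m k A → MaximalBrodyToSpecial A := by
    rintro h A hA ⟨L, _, _, w, z, hwm, hz, hO⟩ L' _ _ w' y hy
    have h1 := dim_le hz hy.sub
      (Pool.Agent.H911.KE.dense_in hO.2.2.2.1 hA hy.dim hy.sub hy.brody)
    exact h N L' w' y hy.dim (h1.trans hwm) (var_of ⟨hy.sub.ne, hy.sub.gen, hy.sub.dim⟩)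
      hy.brody
  -- from hypersurfaces to varieties
  have hS31 : ∀ δ : ℕ → ℕ, (∀ e, D₁ e ≤ δ e) →
      (∀ (e : ℕ) (Q : Fin (N * (2 * N + 1)) → MvPolynomial (Fin (N + 1)) ℂ),
        (∀ t, (Q t).IsHomogeneous e) → Outside m k (powerForm (δ e) Q) →
        MaximalSpecialToBrody (powerForm (δ e) Q)) → SpecialToBrody m := by
    intro δ hδ h n L _ _ w y hw hwm hy hs
    obtain ⟨e, A, he, -, -, -, hz, hbr, hQ⟩ := K n L w y hwm hy
    obtain ⟨Q, hQ, hf, hO⟩ := hQ (δ e) (hδ e)
    exact hbr.1 (h e Q hQ ⟨L, _, _, w, _, hwm, hz, hO⟩ L w _ (max_special hf hO hw hz hs))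
  have hB31 : ∀ δ : ℕ → ℕ, (∀ e, D₁ e ≤ δ e) →
      (∀ (e : ℕ) (Q : Fin (N * (2 * N + 1)) → MvPolynomial (Fin (N + 1)) ℂ),
        (∀ t, (Q t).IsHomogeneous e) → Outside m k (powerForm (δ e) Q) →
        MaximalBrodyToSpecial (powerForm (δ e) Q)) → BrodyToSpecial m := by
    intro δ hδ h n L _ _ w y hw hwm hy hs
    obtain ⟨e, A, he, -, -, -, hz, hbr, hQ⟩ := K n L w y hwm hy
    obtain ⟨Q, hQ, hf, hO⟩ := hQ (δ e) (hδ e)
    exact h e Q hQ ⟨L, _, _, w, _, hwm, hz, hO⟩ L w _ (max_brody hf hO hw hz (hbr.2 hs))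
  refine ⟨D₁, ?_, ?_, fun δ hδ => ⟨?_, ?_, ?_⟩⟩
  · intro n L _ _ w y hwm hy
    obtain ⟨e, A, h1, h2, h3, h4, -, h5, h6⟩ := K n L w y hwm hy
    refine ⟨e, A, h1, h2, h3, h4, h5, fun D hD => ?_⟩
    obtain ⟨Q, hQ, -, hO⟩ := h6 D hD
    exact ⟨Q, hQ, hO⟩
  · intro A L _ _ z hA hO
    refine ⟨fun L' _ _ w y hw hy hyz => ?_, fun w hw hz =>
      ⟨⟨fun h => h.special, fun h => max_special hA hO hw hz h⟩,
        ⟨fun h => h.brody, fun h => max_brody hA hO hw hz h⟩⟩⟩
    obtain ⟨p, hp, hyp⟩ := hyz
    exact ⟨fun h => hyp (Pool.Agent.H911.KE.special_in hO.2.2.2.2 hw hy h p hp),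
      fun h => hyp (Pool.Agent.H911.KE.dense_in hO.2.2.2.1 hA hw hy h p hp)⟩
  · unfold Equivalent
    tfae_have 1 → 2 := hS12
    tfae_have 2 → 3 := h23 δ _
    tfae_have 3 → 1 := hS31 δ hδ
    tfae_finish
  · unfold Equivalent
    tfae_have 1 → 2 := hB12
    tfae_have 2 → 3 := h23 δ _
    tfae_have 3 → 1 := hB31 δ hδ
    tfae_finish
  · unfold Equivalent
    tfae_have 1 → 2 := fun h A hA hout => ⟨hS12 h.1 A hA hout, hB12 h.2 A hA hout⟩
    tfae_have 2 → 3 := h23 δ _
    tfae_have 3 → 1 := fun h => ⟨hS31 δ hδ fun e Q hQ hout => (h e Q hQ hout).1,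
      hB31 δ hδ fun e Q hQ hout => (h e Q hQ hout).2⟩
    tfae_finish

end Pool.Agent.Results.MP_1209e6_ag.SmallSingularLocus
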